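import Pool.Agent.H65.CM4.Targets1

/-!
# CM4, row GRP: grouping of the frequencies in blocks
-/

set_option autoImplicit false
set_option linter.unusedSectionVars false

open MeasureTheory Set Filter NumberField NumberField.InfinitePlace Pool.Agent.H65.CM4
open scoped Real

namespace Pool.Agent.H90.CM4

section

variable {k : Type} [Field k] [NumberField k] [IsTotallyReal k]

/-- two different representatives are not parallel -/
theorem grp_det (R : Ch k) {v w : V2 k} (hv : v ∈ R.W) (hw : w ∈ R.W) (hne : w ≠ v) :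
    det v w ≠ 0 := by
  intro h
  obtain ⟨u, -, hu⟩ := R.uniq v (R.ne v hv)
  have h1 : v = u := hu v ⟨hv, by unfold det; ring⟩
  have h2 : w = u := hu w ⟨hw, h⟩
  exact hne (h2.trans h1.symm)

/-- two representatives modulo the integers with an integral difference are equal -/
theorem grp_ru (R : Ch k) {a b : k} (ha : a ∈ R.U) (hb : b ∈ R.U) (h : Int' (a - b)) : a = b := by
  obtain ⟨u, -, hu⟩ := R.ru a
  have h0 : Int' (a - a) := ⟨0, by simp⟩
  exact (hu a ⟨ha, h0⟩).trans (hu b ⟨hb, h⟩).symm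

/-- the finite set of the dual points -/
theorem grp_set (r η : ℝ) (ξ : RF k) : ∃ S : Finset (QF k), S.card = nz r η ξ ∧
    ∀ Z ∈ S, dz r (dp Z + ξ) ≤ η ^ 2 := by
  by_cases h : {Z : QF k | dz r (dp Z + ξ) ≤ η ^ 2}.Finite
  · refine ⟨h.toFinset, ?_, fun Z hZ => (Set.Finite.mem_toFinset h).1 hZ⟩
    unfold nz
    rw [← Set.ncard_eq_toFinset_card _ h]
    rfl
  · refine ⟨∅, ?_, fun Z hZ => absurd hZ (Finset.notMem_empty Z)⟩
    unfold nz
    rw [Finset.card_empty]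
    symm
    rw [Nat.card_eq_zero]
    exact Or.inr (Set.infinite_coe_iff.2 h)

/-- summation over the frequencies of the lattices -/
theorem grp_sum {B B' : Finset (Ix k)} {n n' : ℕ} {K : ℝ} {f : Ix k → Ix k → ℝ}
    (hB : ∀ x ∈ B, x.2.1.2 < n) (hB' : ∀ x ∈ B', x.2.1.2 < n')
    (h : ∀ g < n, ∀ g' < n', ∑ x ∈ B.filter (fun x => x.2.1.2 = g),
      ∑ y ∈ B'.filter (fun y => y.2.1.2 = g'), f x y ≤ K) :
    ∑ x ∈ B, ∑ y ∈ B', f x y ≤ n * n' * K := by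
  classical
  have e1 : ∑ x ∈ B, ∑ y ∈ B', f x y = ∑ g ∈ Finset.range n, ∑ g' ∈ Finset.range n',
      ∑ x ∈ B.filter (fun x => x.2.1.2 = g), ∑ y ∈ B'.filter (fun y => y.2.1.2 = g'), f x y := by
    rw [← Finset.sum_fiberwise_of_maps_to (s := B) (t := Finset.range n)
      (g := fun x : Ix k => x.2.1.2) (fun x hx => Finset.mem_range.2 (hB x hx))
      (fun x => ∑ y ∈ B', f x y)]
    refine Finset.sum_congr rfl fun g _ => ?_
    rw [Finset.sum_comm (s := Finset.range n')]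
    refine Finset.sum_congr rfl fun x _ => ?_
    exact (Finset.sum_fiberwise_of_maps_to (s := B') (t := Finset.range n')
      (g := fun x : Ix k => x.2.1.2) (fun x hx => Finset.mem_range.2 (hB' x hx))
      (fun y => f x y)).symm
  rw [e1]
  have e2 : ∑ g ∈ Finset.range n, ∑ g' ∈ Finset.range n',
      ∑ x ∈ B.filter (fun x => x.2.1.2 = g), ∑ y ∈ B'.filter (fun y => y.2.1.2 = g'), f x y ≤
      ∑ g ∈ Finset.range n, ∑ g' ∈ Finset.range n', K :=
    Finset.sum_le_sum fun g hg => Finset.sum_le_sum fun g' hg' =>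
      h g (Finset.mem_range.1 hg) g' (Finset.mem_range.1 hg')
  refine e2.trans (le_of_eq ?_)
  simp only [Finset.sum_const, Finset.card_range, nsmul_eq_mul]
  ring

/-- the weight of one index -/
theorem grp_c {M c f m V : ℝ} {l : ℕ} (hV : 0 < V) (hf : 0 < f)
    (hm : (2 : ℝ) ^ l ≤ m) (h : c ^ 2 * f ^ 4 * m ^ 2 * V ≤ M) :
    c ≤ Real.sqrt (M / V) / (f ^ 2 * 2 ^ l) := by
  have h2 : (0 : ℝ) < 2 ^ l := by positivity
  have hd : 0 < f ^ 2 * 2 ^ l := by positivity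
  rw [le_div_iff₀ hd]
  apply Real.le_sqrt_of_sq_le
  rw [le_div_iff₀ hV]
  have h3 : (c * (f ^ 2 * 2 ^ l)) ^ 2 * V = c ^ 2 * f ^ 4 * (2 ^ l) ^ 2 * V := by ring
  rw [h3]
  refine le_trans ?_ h
  have h4 : ((2 : ℝ) ^ l) ^ 2 ≤ m ^ 2 := by
    apply pow_le_pow_left₀ h2.le hm
  have h5 : 0 ≤ c ^ 2 * f ^ 4 := by positivity
  exact mul_le_mul_of_nonneg_right (mul_le_mul_of_nonneg_left h4 h5) hV.le

/-- the numerical estimate for two blocks -/
theorem grp_num {L M η V V' f f' K K' : ℝ} (hL : 0 ≤ L) (hM : 0 ≤ M)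
    (hη : 0 < η) (hV : 0 < V) (hV' : 0 < V') (hf : 0 < f) (hf' : 0 < f') (hK : 0 < K)
    (hK' : 0 < K') :
    Real.sqrt (M / V) / (f ^ 2 * K) * (Real.sqrt (M / V') / (f' ^ 2 * K')) *
      (f ^ 2 * f' ^ 2 * (L * Real.sqrt (V * V') * (1 + η * (K * 2) ^ 2 / V) *
        (1 + η * (K' * 2) ^ 2 / V'))) ≤
      16 * L * M * ((1 + η * K ^ 2 / V) / K * ((1 + η * K' ^ 2 / V') / K')) := by
  have e1 : Real.sqrt (M / V) * Real.sqrt (M / V') * Real.sqrt (V * V') = M := by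
    rw [← Real.sqrt_mul (by positivity), ← Real.sqrt_mul (by positivity)]
    have : M / V * (M / V') * (V * V') = M ^ 2 := by
      field_simp
    rw [this, Real.sqrt_sq hM]
  have e2 : Real.sqrt (M / V) / (f ^ 2 * K) * (Real.sqrt (M / V') / (f' ^ 2 * K')) *
      (f ^ 2 * f' ^ 2 * (L * Real.sqrt (V * V') * (1 + η * (K * 2) ^ 2 / V) *
        (1 + η * (K' * 2) ^ 2 / V'))) =
      L * (Real.sqrt (M / V) * Real.sqrt (M / V') * Real.sqrt (V * V')) *
        (((1 + η * (K * 2) ^ 2 / V) / K) * ((1 + η * (K' * 2) ^ 2 / V') / K')) := by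
    have hf2 : f ≠ 0 := hf.ne'
    have hf2' : f' ≠ 0 := hf'.ne'
    generalize Real.sqrt (M / V) = a
    generalize Real.sqrt (M / V') = b
    generalize Real.sqrt (V * V') = c
    generalize (1 + η * (K * 2) ^ 2 / V) = p
    generalize (1 + η * (K' * 2) ^ 2 / V') = q
    field_simp
  rw [e2, e1]
  have h4 : ∀ K V : ℝ, 0 < K → 0 < V → (1 + η * (K * 2) ^ 2 / V) / K ≤
      4 * ((1 + η * K ^ 2 / V) / K) := by
    intro K V hK hV
    rw [← mul_div_assoc]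
    apply div_le_div_of_nonneg_right _ hK.le
    have : η * (K * 2) ^ 2 / V = 4 * (η * K ^ 2 / V) := by ring
    rw [this]
    linarith
  have p1 : 0 ≤ (1 + η * (K * 2) ^ 2 / V) / K := by positivity
  have p2 : 0 ≤ (1 + η * (K' * 2) ^ 2 / V') / K' := by positivity
  have p3 : 0 ≤ (1 + η * K ^ 2 / V) / K := by positivity
  have h5 := mul_le_mul (h4 K V hK hV) (h4 K' V' hK' hV') p2 (by positivity)
  have h6 : 0 ≤ L * M := by positivity
  calc L * M * (((1 + η * (K * 2) ^ 2 / V) / K) * ((1 + η * (K' * 2) ^ 2 / V') / K'))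
      ≤ L * M * (4 * ((1 + η * K ^ 2 / V) / K) * (4 * ((1 + η * K' ^ 2 / V') / K'))) :=
        mul_le_mul_of_nonneg_left h5 h6
    _ = _ := by ring

/-- one block, fixed frequencies of the lattices -/
theorem grp_fix (R : Ch k) (C₀ : ℝ)
    (hcnt : ∀ (r η Λ A B : ℝ) (v w : V2 k) (μ : RF k)
      (F : Finset (k × k × QF k)), 0 < r → 0 < η → 1 ≤ Λ → 1 ≤ A → 1 ≤ B →
      Ideal.absNorm (Ideal.span {v.1, v.2} : Ideal (𝓞 k)) ≤ R.C0 →
      Ideal.absNorm (Ideal.span {w.1, w.2} : Ideal (𝓞 k)) ≤ R.C0 → det v w ≠ 0 →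
      η ^ dg k * nn r v ≤ Λ → η ^ dg k * nn r w ≤ Λ →
      (∀ x ∈ F, ∀ y ∈ F, Int' (x.1 - y.1) → Int' (x.2.1 - y.2.1) → x.1 = y.1 ∧ x.2.1 = y.2.1) →
      (∀ x ∈ F, nm (den x.1) ≤ A ∧ nm (den x.2.1) ≤ B ∧
        dz r (dp x.2.2 + μ + sq2 x.1 v - sq2 x.2.1 w) ≤ η ^ 2) →
      (F.card : ℝ) ≤ C₀ * Λ * Real.sqrt (nn r v * nn r w) *
        (1 + η ^ dg k * A ^ 2 / nn r v) * (1 + η ^ dg k * B ^ 2 / nn r w))
    {C₁ r η Λ A : ℝ} {μ : Ideal (𝓞 k) × ℕ → RF k} (hr : 1 ≤ r) (hη : 0 < η) (hΛ : 1 ≤ Λ)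
    (v w : V2 k) (f f' : Ideal (𝓞 k)) (g g' l l' : ℕ) (hv : v ∈ R.W) (hw : w ∈ R.W)
    (hdet : det v w ≠ 0) (hv2 : η ^ dg k * nn r v ≤ Λ) (hw2 : η ^ dg k * nn r w ≤ Λ)
    (B B' : Finset (Ix k)) (hB : ∀ x ∈ B, Iv R C₁ r A x ∧ x.1 = v ∧ x.2.1 = (f, g) ∧
      Nat.log 2 (Ideal.absNorm (den x.2.2)) = l)
    (hB' : ∀ x ∈ B', Iv R C₁ r A x ∧ x.1 = w ∧ x.2.1 = (f', g') ∧
      Nat.log 2 (Ideal.absNorm (den x.2.2)) = l') :
    ∑ x ∈ B, ∑ y ∈ B', (nz r η (lam μ x - lam μ y) : ℝ) ≤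
      C₀ * Λ * Real.sqrt (nn r v * nn r w) *
      (1 + η ^ dg k * (2 ^ (l + 1)) ^ 2 / nn r v) *
      (1 + η ^ dg k * (2 ^ (l' + 1)) ^ 2 / nn r w) := by
  classical
  choose S hS hS2 using fun ξ : RF k => grp_set r η ξ
  obtain ⟨U, hU⟩ : ∃ U : Finset ((_ : Ix k × Ix k) × QF k),
      U = (B ×ˢ B').sigma fun p => S (lam μ p.1 - lam μ p.2) := ⟨_, rfl⟩
  have hmem : ∀ u ∈ U, u.1.1 ∈ B ∧ u.1.2 ∈ B' ∧ u.2 ∈ S (lam μ u.1.1 - lam μ u.1.2) := by
    intro u hu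
    rw [hU, Finset.mem_sigma, Finset.mem_product] at hu
    exact ⟨hu.1.1, hu.1.2, hu.2⟩
  have hinj : Set.InjOn (fun u : ((_ : Ix k × Ix k) × QF k) => (u.1.1.2.2, u.1.2.2.2, u.2)) U := by
    rintro ⟨⟨x, y⟩, Z⟩ hu ⟨⟨x', y'⟩, Z'⟩ hu' h
    obtain ⟨h1, h2, -⟩ := hmem _ hu
    obtain ⟨h1', h2', -⟩ := hmem _ hu'
    simp only [Prod.mk.injEq] at h
    obtain ⟨e1, e2, e3⟩ := h
    have ex : x = x' := by
      refine Prod.ext ((hB x h1).2.1.trans (hB x' h1').2.1.symm) (Prod.ext ?_ e1)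
      exact (hB x h1).2.2.1.trans (hB x' h1').2.2.1.symm
    have ey : y = y' := by
      refine Prod.ext ((hB' y h2).2.1.trans (hB' y' h2').2.1.symm) (Prod.ext ?_ e2)
      exact (hB' y h2).2.2.1.trans (hB' y' h2').2.2.1.symm
    rw [ex, ey, e3]
  have hcard : ((U.image fun u : ((_ : Ix k × Ix k) × QF k) =>
      (u.1.1.2.2, u.1.2.2.2, u.2)).card : ℝ) =
      ∑ x ∈ B, ∑ y ∈ B', (nz r η (lam μ x - lam μ y) : ℝ) := by
    rw [Finset.card_image_of_injOn hinj, hU, Finset.card_sigma]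
    push_cast
    rw [Finset.sum_product]
    refine Finset.sum_congr rfl fun x _ => Finset.sum_congr rfl fun y _ => ?_
    rw [hS]
  rw [← hcard]
  have hpow : ∀ l : ℕ, (1 : ℝ) ≤ 2 ^ (l + 1) := fun l => one_le_pow₀ (by norm_num)
  have hlog : ∀ m l : ℕ, Nat.log 2 m = l → (m : ℝ) ≤ 2 ^ (l + 1) := by
    intro m l h
    have h1 : m < 2 ^ (l + 1) := by
      rw [← h]
      exact Nat.lt_pow_succ_log_self (by norm_num) m
    exact_mod_cast h1.le
  refine hcnt r η Λ (2 ^ (l + 1)) (2 ^ (l' + 1)) v w (μ (f, g) - μ (f', g')) _ (by linarith) hη hΛ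
    (hpow l) (hpow l') (R.cont v hv) (R.cont w hw) hdet hv2 hw2 ?_ ?_
  · intro t ht t' ht' hi1 hi2
    rw [Finset.mem_image] at ht ht'
    obtain ⟨⟨⟨x, y⟩, Z⟩, hu, rfl⟩ := ht
    obtain ⟨⟨⟨x', y'⟩, Z'⟩, hu', rfl⟩ := ht'
    obtain ⟨h1, h2, -⟩ := hmem _ hu
    obtain ⟨h1', h2', -⟩ := hmem _ hu'
    exact ⟨grp_ru R (hB x h1).1.u (hB x' h1').1.u hi1,
      grp_ru R (hB' y h2).1.u (hB' y' h2').1.u hi2⟩
  intro t ht
  rw [Finset.mem_image] at ht
  obtain ⟨⟨⟨x, y⟩, Z⟩, hu, rfl⟩ := ht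
  obtain ⟨h1, h2, h3⟩ := hmem _ hu
  obtain ⟨i1, i2, i3, i4⟩ := hB x h1
  obtain ⟨j1, j2, j3, j4⟩ := hB' y h2
  refine ⟨hlog _ _ i4, hlog _ _ j4, ?_⟩
  have h4 := hS2 _ _ h3
  have e : dp Z + (lam μ x - lam μ y) = dp Z + (μ (f, g) - μ (f', g')) +
      sq2 x.2.2 v - sq2 y.2.2 w := by
    unfold lam
    rw [i2, i3, j2, j3]
    abel
  rw [← e]
  exact h4

/-- the sum over pairs of blocks -/
theorem grp_blocks [DecidableEq (V2 k)] [DecidableEq (V2 k × Ideal (𝓞 k) × ℕ)]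
    (I : Finset (Ix k)) (T : Finset (V2 k × Ideal (𝓞 k) × ℕ))
    (hmaps : ∀ x ∈ I, blk x ∈ T) (F : Ix k → Ix k → ℝ) :
    ∑ x ∈ I, ∑ y ∈ I.filter (fun y => y.1 ≠ x.1), F x y =
      ∑ a ∈ T, ∑ b ∈ T.filter (fun b => b.1 ≠ a.1),
        ∑ x ∈ I.filter (fun x => blk x = a), ∑ y ∈ I.filter (fun y => blk y = b), F x y := by
  have hb1 : ∀ x : Ix k, (blk x).1 = x.1 := fun x => rfl
  rw [← Finset.sum_fiberwise_of_maps_to (s := I) (t := T) (g := blk) hmaps]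
  refine Finset.sum_congr rfl fun a _ => ?_
  rw [Finset.sum_comm (s := T.filter (fun b => b.1 ≠ a.1))]
  refine Finset.sum_congr rfl fun x hx => ?_
  rw [Finset.mem_filter] at hx
  have hx1 : x.1 = a.1 := by rw [← hx.2, hb1]
  rw [hx1]
  have hm2 : ∀ y ∈ I.filter (fun y => y.1 ≠ a.1), blk y ∈ T.filter (fun b => b.1 ≠ a.1) := by
    intro y hy
    rw [Finset.mem_filter] at hy ⊢
    exact ⟨hmaps y hy.1, by rw [hb1]; exact hy.2⟩
  rw [← Finset.sum_fiberwise_of_maps_to (s := I.filter (fun y => y.1 ≠ a.1))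
    (t := T.filter (fun b => b.1 ≠ a.1)) (g := blk) hm2]
  refine Finset.sum_congr rfl fun b hb => ?_
  rw [Finset.mem_filter] at hb
  refine Finset.sum_congr ?_ fun _ _ => rfl
  ext y
  simp only [Finset.mem_filter]
  constructor
  · rintro ⟨⟨h1, -⟩, h2⟩
    exact ⟨h1, h2⟩
  · rintro ⟨h1, h2⟩
    exact ⟨⟨h1, by rw [← hb1, h2]; exact hb.2⟩, h2⟩

end

section

variable (k : Type) [Field k] [NumberField k] [IsTotallyReal k]

/-- GRP -/
theorem pf_GRP (hEMB : T_EMB k) (hNRD : T_NRD k) (hCNT : T_CNT k) (_hW10 : T_W10 k) :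
    T_GRP k := by
  classical
  intro R C₁ _
  obtain ⟨C₀, hC₀, hcnt⟩ := hCNT R.C0
  obtain ⟨-, -, -, -, -, -, -, -, -, -, hnm, hden⟩ := hEMB
  refine ⟨16 * C₀, by positivity, ?_⟩
  intro r η Λ A M I c μ hr hη hΛ hA hM hIv hηn hc hcM
  obtain ⟨T, hT⟩ : ∃ T, T = I.image blk := ⟨_, rfl⟩
  rw [← hT]
  have hmaps : ∀ x ∈ I, blk x ∈ T := fun x hx => by
    rw [hT]
    exact Finset.mem_image_of_mem _ hx
  have hr0 : 0 < r := by linarith
  -- the key estimate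
  have key : ∀ a ∈ T, ∀ b ∈ T, b.1 ≠ a.1 →
      ∑ x ∈ I.filter (fun x => blk x = a), ∑ y ∈ I.filter (fun y => blk y = b),
        c x * c y * nz r η (lam μ x - lam μ y) ≤
      16 * C₀ * Λ * M * (hw r (η ^ dg k) a * hw r (η ^ dg k) b) := by
    intro a ha b hb hab
    rw [hT, Finset.mem_image] at ha hb
    obtain ⟨x₀, hx₀, hxa⟩ := ha
    obtain ⟨y₀, hy₀, hyb⟩ := hb
    obtain ⟨v, f, l⟩ := a
    obtain ⟨w, f', l'⟩ := b
    have hbl : ∀ (x : Ix k) (v : V2 k) (f : Ideal (𝓞 k)) (l : ℕ), blk x = (v, f, l) →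
        x.1 = v ∧ x.2.1.1 = f ∧ Nat.log 2 (Ideal.absNorm (den x.2.2)) = l := by
      intro x v f l h
      unfold blk at h
      simp only [Prod.mk.injEq] at h
      exact h
    obtain ⟨a1, a2, a3⟩ := hbl _ _ _ _ hxa
    obtain ⟨b1, b2, b3⟩ := hbl _ _ _ _ hyb
    have hab' : w ≠ v := hab
    have hIx := hIv x₀ hx₀
    have hIy := hIv y₀ hy₀
    have hv : v ∈ R.W := by rw [← a1]; exact hIx.wm
    have hwg : w ∈ R.W := by rw [← b1]; exact hIy.wm
    have hdet := grp_det R hv hwg hab'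
    have hV : 0 < nn r v := ((hNRD r v w hr0).2.1 (R.ne v hv)).1
    have hV' : 0 < nn r w := ((hNRD r w v hr0).2.1 (R.ne w hwg)).1
    have hη1 : η ^ dg k * nn r v ≤ Λ := by rw [← a1]; exact hηn x₀ hx₀
    have hη2 : η ^ dg k * nn r w ≤ Λ := by rw [← b1]; exact hηn y₀ hy₀
    have hfb : f ≠ ⊥ := by rw [← a2]; exact hIx.f
    have hfb' : f' ≠ ⊥ := by rw [← b2]; exact hIy.f
    have hfR : (0 : ℝ) < nm f := lt_of_lt_of_le one_pos (hnm f hfb).1
    have hfR' : (0 : ℝ) < nm f' := lt_of_lt_of_le one_pos (hnm f' hfb').1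
    have hcb : ∀ (x : Ix k) (v : V2 k) (f : Ideal (𝓞 k)) (l : ℕ), x ∈ I → 0 < nn r v →
        (0 : ℝ) < nm f → blk x = (v, f, l) →
        c x ≤ Real.sqrt (M / nn r v) / (nm f ^ 2 * 2 ^ l) := by
      intro x v f l hx hV hf h
      obtain ⟨h1, h2, h3⟩ := hbl _ _ _ _ h
      have h4 := hcM x hx
      rw [h1, h2] at h4
      refine grp_c hV hf ?_ h4
      have hm1 : (1 : ℝ) ≤ nm (den x.2.2) := (hnm _ (hden x.2.2 x.2.2).1).1
      have hm : Ideal.absNorm (den x.2.2) ≠ 0 := by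
        intro h0
        unfold nm at hm1
        rw [h0] at hm1
        norm_num at hm1
      have h5 := Nat.pow_log_le_self 2 hm
      rw [h3] at h5
      unfold nm
      exact_mod_cast h5
    -- the first step
    have s1 : ∑ x ∈ I.filter (fun x => blk x = (v, f, l)),
        ∑ y ∈ I.filter (fun y => blk y = (w, f', l')),
        c x * c y * nz r η (lam μ x - lam μ y) ≤
        ∑ x ∈ I.filter (fun x => blk x = (v, f, l)),
        ∑ y ∈ I.filter (fun y => blk y = (w, f', l')),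
        Real.sqrt (M / nn r v) / (nm f ^ 2 * 2 ^ l) *
          (Real.sqrt (M / nn r w) / (nm f' ^ 2 * 2 ^ l')) *
            (nz r η (lam μ x - lam μ y) : ℝ) := by
      refine Finset.sum_le_sum fun x hx => Finset.sum_le_sum fun y hy => ?_
      rw [Finset.mem_filter] at hx hy
      refine mul_le_mul_of_nonneg_right ?_ (Nat.cast_nonneg _)
      exact mul_le_mul (hcb x v f l hx.1 hV hfR hx.2) (hcb y w f' l' hy.1 hV' hfR' hy.2)
        (hc y hy.1) (by positivity)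
    refine s1.trans ?_
    simp_rw [← Finset.mul_sum]
    have s2 : ∑ x ∈ I.filter (fun x => blk x = (v, f, l)),
        ∑ y ∈ I.filter (fun y => blk y = (w, f', l')), (nz r η (lam μ x - lam μ y) : ℝ) ≤
        ((Ideal.absNorm f ^ 2 : ℕ) : ℝ) * ((Ideal.absNorm f' ^ 2 : ℕ) : ℝ) *
          (C₀ * Λ * Real.sqrt (nn r v * nn r w) *
          (1 + η ^ dg k * (2 ^ (l + 1)) ^ 2 / nn r v) *
          (1 + η ^ dg k * (2 ^ (l' + 1)) ^ 2 / nn r w)) := by
      refine grp_sum ?_ ?_ ?_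
      · intro x hx
        rw [Finset.mem_filter] at hx
        have h1 := (hIv x hx.1).g
        rw [(hbl _ _ _ _ hx.2).2.1] at h1
        exact h1
      · intro x hx
        rw [Finset.mem_filter] at hx
        have h1 := (hIv x hx.1).g
        rw [(hbl _ _ _ _ hx.2).2.1] at h1
        exact h1
      · intro g _ g' _
        refine grp_fix (C₁ := C₁) (A := A) R C₀ hcnt hr hη hΛ v w f f' g g' l l' hv hwg hdet
          hη1 hη2 _ _ ?_ ?_
        · intro x hx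
          rw [Finset.mem_filter, Finset.mem_filter] at hx
          obtain ⟨h1, h2, h3⟩ := hbl _ _ _ _ hx.1.2
          exact ⟨hIv x hx.1.1, h1, Prod.ext h2 hx.2, h3⟩
        · intro x hx
          rw [Finset.mem_filter, Finset.mem_filter] at hx
          obtain ⟨h1, h2, h3⟩ := hbl _ _ _ _ hx.1.2
          exact ⟨hIv x hx.1.1, h1, Prod.ext h2 hx.2, h3⟩
    refine (mul_le_mul_of_nonneg_left s2 (by positivity)).trans ?_
    have e4 : ∀ l : ℕ, (4 : ℝ) ^ l = (2 ^ l) ^ 2 := fun l => by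
      rw [← pow_mul, mul_comm, pow_mul]
      norm_num
    have e5 : ∀ f : Ideal (𝓞 k), ((Ideal.absNorm f ^ 2 : ℕ) : ℝ) = nm f ^ 2 := fun f => by
      unfold nm
      push_cast
      rfl
    rw [e5, e5]
    unfold hw
    simp only
    rw [e4, e4, pow_succ (2 : ℝ) l, pow_succ (2 : ℝ) l']
    have h7 := grp_num (L := C₀ * Λ) (by positivity) hM (pow_pos hη (dg k)) hV hV' hfR hfR'
      (K := 2 ^ l) (K' := 2 ^ l') (by positivity) (by positivity)
    refine h7.trans (le_of_eq ?_)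
    ring
  rw [grp_blocks I T hmaps, Finset.mul_sum]
  refine Finset.sum_le_sum fun a ha => ?_
  rw [Finset.mul_sum]
  refine Finset.sum_le_sum fun b hb => ?_
  rw [Finset.mem_filter] at hb
  exact key a ha b hb.1 hb.2

end

end Pool.Agent.H90.CM4
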