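import Pool.Agent.H65.CM4.Targets1

/-!
# Row A_OFF of `cm4_modules`: the off-diagonal terms
-/

set_option autoImplicit false
set_option linter.unusedSectionVars false

open MeasureTheory Set Filter NumberField NumberField.InfinitePlace Pool.Agent.H65.CM4
open scoped Real

namespace Pool.Agent.H90.CM4

section

variable {k : Type} [Field k] [NumberField k] [IsTotallyReal k]

theorem norm_ee (Q : QF k) (ξ : RF k) : ‖ee Q ξ‖ = 1 := by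
  unfold ee
  generalize (∑ v : Pl k, (rv v (Q.1 : k) * (ξ v).1 + rv v (Q.2.1 : k) * (ξ v).2.1 +
    rv v (Q.2.2 : k) * (ξ v).2.2)) = s
  have h : (2 * π * ((s : ℝ) : ℂ) * Complex.I) = ((2 * π * s : ℝ) : ℂ) * Complex.I := by
    push_cast; ring
  rw [h, Complex.norm_exp_ofReal_mul_I]

theorem ga_nonneg (W r : ℝ) (P : RF k) (Q : QF k) : 0 ≤ ga W r P Q := (Real.exp_pos _).le

/-- Interchange of the sums. -/
theorem interchange (hPN3 : T_PN3 k) (W r : ℝ) (P : RF k) (hW : 0 < W) (hr : 0 < r)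
    {ι : Type} (I : Finset ι) (J : ι → Finset ι) (c : ι → ℂ) (l : ι → RF k) :
    ‖∑' Q : QF k, (ga W r P Q : ℂ) * ∑ x ∈ I, ∑ y ∈ J x,
        c x * (starRingEnd ℂ) (c y) * ee Q (l x - l y)‖ ≤
      ∑ x ∈ I, ∑ y ∈ J x, ‖c x‖ * ‖c y‖ * (W ^ (3 * dg k) * ps W r (l x - l y)) := by
  have hs : ∀ ξ : RF k, Summable fun Q : QF k => (ga W r P Q : ℂ) * ee Q ξ := by
    intro ξ
    refine Summable.of_norm ?_
    have : (fun Q : QF k => ‖(ga W r P Q : ℂ) * ee Q ξ‖) = fun Q => ga W r P Q := by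
      funext Q
      rw [norm_mul, norm_ee, mul_one, Complex.norm_real, Real.norm_of_nonneg (ga_nonneg _ _ _ _)]
    rw [this]
    exact (hPN3 W r P ξ hW hr).1
  have e1 : ∑' Q : QF k, (ga W r P Q : ℂ) * ∑ x ∈ I, ∑ y ∈ J x,
        c x * (starRingEnd ℂ) (c y) * ee Q (l x - l y) =
      ∑ x ∈ I, ∑ y ∈ J x, c x * (starRingEnd ℂ) (c y) *
        ∑' Q : QF k, (ga W r P Q : ℂ) * ee Q (l x - l y) := by
    have e2 : (fun Q : QF k => (ga W r P Q : ℂ) * ∑ x ∈ I, ∑ y ∈ J x,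
        c x * (starRingEnd ℂ) (c y) * ee Q (l x - l y)) =
        fun Q => ∑ x ∈ I, ∑ y ∈ J x, (c x * (starRingEnd ℂ) (c y)) *
          ((ga W r P Q : ℂ) * ee Q (l x - l y)) := by
      funext Q
      rw [Finset.mul_sum]
      refine Finset.sum_congr rfl fun x _ => ?_
      rw [Finset.mul_sum]
      refine Finset.sum_congr rfl fun y _ => ?_
      ring
    rw [e2]
    rw [Summable.tsum_finsetSum fun x _ => summable_sum fun y _ => (hs _).mul_left _]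
    refine Finset.sum_congr rfl fun x _ => ?_
    rw [Summable.tsum_finsetSum fun y _ => (hs _).mul_left _]
    refine Finset.sum_congr rfl fun y _ => ?_
    rw [tsum_mul_left]
  rw [e1]
  refine (norm_sum_le _ _).trans (Finset.sum_le_sum fun x _ => ?_)
  refine (norm_sum_le _ _).trans (Finset.sum_le_sum fun y _ => ?_)
  rw [norm_mul, norm_mul, RCLike.norm_conj]
  exact mul_le_mul_of_nonneg_left (hPN3 W r P _ hW hr).2.2 (by positivity)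

/-- Powers against the exponential function. -/
theorem pow_exp (δ a : ℝ) (hδ : 0 < δ) : ∃ C : ℝ, 0 ≤ C ∧ ∀ Y : ℝ, 1 ≤ Y →
    Y ^ a * Real.exp (-(π * Y ^ (2 * δ) / 2)) ≤ C := by
  set n : ℕ := ⌈a / (2 * δ)⌉₊ with hn
  refine ⟨(n.factorial : ℝ), by positivity, fun Y hY => ?_⟩
  have hY0 : 0 < Y := by linarith
  set z : ℝ := Y ^ (2 * δ) with hz
  have hz1 : 1 ≤ z := Real.one_le_rpow hY (by positivity)
  have h1 : Y ^ a ≤ z ^ n := by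
    rw [hz, ← Real.rpow_natCast, ← Real.rpow_mul hY0.le]
    refine Real.rpow_le_rpow_of_exponent_le hY ?_
    have h2 : a / (2 * δ) ≤ (n : ℝ) := Nat.le_ceil _
    rw [div_le_iff₀ (by positivity)] at h2
    linarith
  have h2 : z ^ n ≤ n.factorial * Real.exp z := by
    have := Real.pow_div_factorial_le_exp z (by linarith) n
    rw [div_le_iff₀ (by positivity)] at this
    linarith
  have h3 : Real.exp z ≤ Real.exp (π * z / 2) := by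
    refine Real.exp_le_exp.2 ?_
    have := Real.pi_gt_three
    nlinarith
  rw [Real.exp_neg, mul_inv_le_iff₀ (Real.exp_pos _)]
  calc Y ^ a ≤ z ^ n := h1
    _ ≤ n.factorial * Real.exp z := h2
    _ ≤ n.factorial * Real.exp (π * z / 2) := mul_le_mul_of_nonneg_left h3 (by positivity)

/-- Logarithms against powers. -/
theorem log_pow_le (δ m : ℝ) (hδ : 0 < δ) (hδ1 : δ ≤ 1) (hm : 0 ≤ m) (Y A : ℝ) (hY : 1 ≤ Y)
    (hA : 1 ≤ A) (hAY : A ≤ Y ^ (m * (1 + δ))) :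
    (1 + Real.log A) ^ 3 ≤ (1 + 6 * m / δ) ^ 3 * Y ^ δ := by
  have hY0 : 0 < Y := by linarith
  have hlY := Real.log_nonneg hY
  have h1 : Real.log A ≤ 2 * m * Real.log Y := by
    have h := Real.log_le_log (by linarith) hAY
    rw [Real.log_rpow hY0] at h
    have h' : m * (1 + δ) * Real.log Y ≤ m * 2 * Real.log Y :=
      mul_le_mul_of_nonneg_right (mul_le_mul_of_nonneg_left (by linarith) hm) hlY
    linarith
  have h2 : Real.log Y ≤ Y ^ (δ / 3) / (δ / 3) := Real.log_le_rpow_div hY0.le (by positivity)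
  have h3 : 1 ≤ Y ^ (δ / 3) := Real.one_le_rpow hY (by positivity)
  have h4 : 1 + Real.log A ≤ (1 + 6 * m / δ) * Y ^ (δ / 3) := by
    have h5 : Y ^ (δ / 3) / (δ / 3) = 3 / δ * Y ^ (δ / 3) := by field_simp
    rw [h5] at h2
    have h6 : (1 + 6 * m / δ) * Y ^ (δ / 3) = Y ^ (δ / 3) + 2 * m * (3 / δ * Y ^ (δ / 3)) := by
      ring
    rw [h6]
    have h7 : 2 * m * Real.log Y ≤ 2 * m * (3 / δ * Y ^ (δ / 3)) :=
      mul_le_mul_of_nonneg_left h2 (by positivity)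
    linarith
  have h5 : 0 ≤ 1 + Real.log A := by have := Real.log_nonneg hA; linarith
  calc (1 + Real.log A) ^ 3 ≤ ((1 + 6 * m / δ) * Y ^ (δ / 3)) ^ 3 := pow_le_pow_left₀ h5 h4 3
    _ = (1 + 6 * m / δ) ^ 3 * (Y ^ (δ / 3)) ^ 3 := by ring
    _ = (1 + 6 * m / δ) ^ 3 * Y ^ δ := by
        congr 1
        rw [← Real.rpow_natCast, ← Real.rpow_mul hY0.le]
        congr 1
        push_cast
        ring

/-- The sum over the pairs of blocks. -/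
theorem sum_pairs {ι κ : Type} (B B0 B1 : Finset ι) (J : ι → Finset ι)
    (p : ι → κ) (q : ι → Prop) (hB0 : ∀ a, a ∈ B0 ↔ a ∈ B ∧ ¬ q a) (hB1 : ∀ a, a ∈ B1 ↔ a ∈ B ∧ q a)
    (hJ : ∀ a ∈ B, ∀ b ∈ J a, b ∈ B ∧ p b ≠ p a)
    (hq : ∀ a ∈ B, ∀ b ∈ B, q a → q b → p b = p a) (h : ι → ℝ) (h0 : ∀ a ∈ B, 0 ≤ h a)
    (H0 H1 : ℝ) (hH0 : ∑ a ∈ B0, h a ≤ H0) (hH1 : ∑ a ∈ B1, h a ≤ H1) :
    ∑ a ∈ B, ∑ b ∈ J a, h a * h b ≤ H0 * (H0 + 2 * H1) := by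
  classical
  have h00 : ∀ a ∈ B0, 0 ≤ h a := fun a ha => h0 a ((hB0 a).1 ha).1
  have h01 : ∀ a ∈ B1, 0 ≤ h a := fun a ha => h0 a ((hB1 a).1 ha).1
  have hn0 : 0 ≤ ∑ a ∈ B0, h a := Finset.sum_nonneg h00
  have hn1 : 0 ≤ ∑ a ∈ B1, h a := Finset.sum_nonneg h01
  have e0 : B0 = B.filter (fun a => ¬ q a) := by
    ext a; rw [hB0, Finset.mem_filter]
  have e1 : B1 = B.filter (fun a => q a) := by
    ext a; rw [hB1, Finset.mem_filter]
  have hsplit : ∀ f : ι → ℝ, ∑ a ∈ B, f a = ∑ a ∈ B1, f a + ∑ a ∈ B0, f a := fun f => by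
    rw [e0, e1]
    exact (Finset.sum_filter_add_sum_filter_not B (fun a => q a) f).symm
  rw [hsplit]
  have h1 : ∑ a ∈ B1, ∑ b ∈ J a, h a * h b ≤ ∑ a ∈ B1, h a * H0 := by
    refine Finset.sum_le_sum fun a ha => ?_
    obtain ⟨haB, hqa⟩ := (hB1 a).1 ha
    rw [← Finset.mul_sum]
    refine mul_le_mul_of_nonneg_left (le_trans ?_ hH0) (h0 a haB)
    refine Finset.sum_le_sum_of_subset_of_nonneg ?_ fun b hb _ => h00 b hb
    intro b hb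
    obtain ⟨hbB, hne⟩ := hJ a haB b hb
    exact (hB0 b).2 ⟨hbB, fun hqb => hne (hq a haB b hbB hqa hqb)⟩
  have h2 : ∑ a ∈ B0, ∑ b ∈ J a, h a * h b ≤ ∑ a ∈ B0, h a * (H0 + H1) := by
    refine Finset.sum_le_sum fun a ha => ?_
    obtain ⟨haB, -⟩ := (hB0 a).1 ha
    rw [← Finset.mul_sum]
    refine mul_le_mul_of_nonneg_left ?_ (h0 a haB)
    calc ∑ b ∈ J a, h b ≤ ∑ b ∈ B, h b :=
          Finset.sum_le_sum_of_subset_of_nonneg (fun b hb => (hJ a haB b hb).1)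
            fun b hb _ => h0 b hb
      _ = _ := hsplit h
      _ ≤ H0 + H1 := by linarith
  rw [← Finset.sum_mul] at h1 h2
  have hH0' : 0 ≤ H0 := hn0.trans hH0
  have hH1' : 0 ≤ H1 := hn1.trans hH1
  nlinarith

/-- The lower bound of the metric. -/
theorem nn_lower (hEMB : T_EMB k) (hW10 : T_W10 k) (R : Ch k) (r : ℝ) (w : V2 k) (hr : 1 ≤ r)
    (hw : w ∈ R.W) : 1 / r ^ dg k ≤ nn r w := by
  obtain ⟨hcard, -, -, -, -, -, -, -, -, hone, -, -⟩ := hEMB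
  have hr0 : 0 < r := by linarith
  by_cases h2 : w.2 = 0
  · exact (hW10 R r w hr0 hw h2).2.1
  · have h1 : 1 ≤ Nr (w.2 : k) := hone w.2 h2
    have e1 : ∏ v : Pl k, (r * rv v (w.2 : k) ^ 2) = r ^ dg k * Nr (w.2 : k) ^ 2 := by
      rw [Finset.prod_mul_distrib, Finset.prod_const, Finset.card_univ, hcard]
      congr 1
      unfold Nr
      rw [← Finset.prod_pow]
      exact Finset.prod_congr rfl fun v _ => (sq_abs _).symm
    have h3 : r ^ dg k * Nr (w.2 : k) ^ 2 ≤ nn r w := by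
      rw [← e1]
      unfold nn
      refine Finset.prod_le_prod (fun v _ => by positivity) fun v _ => ?_
      unfold nr
      have : 0 ≤ rv v (w.1 : k) ^ 2 / r := by positivity
      linarith
    have h4 : (1 : ℝ) ≤ r ^ dg k := one_le_pow₀ hr
    have h5 : 1 / r ^ dg k ≤ 1 := by
      rw [div_le_one (by positivity)]; exact h4
    have h6 : (1 : ℝ) ≤ Nr (w.2 : k) ^ 2 := one_le_pow₀ h1
    nlinarith


/-! ### Numerical parts -/

theorem num_tail (n : ℕ) (C₁ C₆ C₇ CT y r M E W K S ε : ℝ) (hC₁ : 0 ≤ C₁) (hC₆ : 0 ≤ C₆)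
    (hCT : 0 ≤ CT) (hε : 0 ≤ ε) (hy : 1 ≤ y) (hr : 0 ≤ r) (hry : r ≤ C₁ * y) (hM : 0 ≤ M)
    (hE : 0 ≤ E) (hS0 : 0 ≤ S) (hW3 : W ≤ y ^ (3 * n : ℝ)) (hK0 : 0 ≤ K)
    (hK : K ≤ C₆ * y ^ (14 * n : ℝ)) (hexp : y ^ (29 * n : ℝ) * E ≤ C₇)
    (hS : S ≤ K * (K * (M * r ^ n * (CT * r ^ n * E)))) :
    W * S ≤ CT * C₆ ^ 2 * C₁ ^ n * C₇ * y ^ (n * (3 + ε)) * r ^ n * M := by
  have hy0 : 0 < y := by linarith
  have h14 : 0 < y ^ (14 * n : ℝ) := Real.rpow_pos_of_pos hy0 _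
  have h0 : 0 ≤ M * r ^ n * (CT * r ^ n * E) := by positivity
  have h2 : K * (K * (M * r ^ n * (CT * r ^ n * E))) ≤
      (C₆ * y ^ (14 * n : ℝ)) * ((C₆ * y ^ (14 * n : ℝ)) * (M * r ^ n * (CT * r ^ n * E))) :=
    mul_le_mul hK (mul_le_mul_of_nonneg_right hK h0) (by positivity) (by positivity)
  have h3 : y ^ (3 * n : ℝ) ≤ y ^ (n * (3 + ε)) := by
    refine Real.rpow_le_rpow_of_exponent_le hy ?_
    have : 0 ≤ (n : ℝ) * ε := by positivity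
    linarith
  have hrn' : r ^ n ≤ C₁ ^ n * y ^ (n : ℝ) := by
    calc r ^ n ≤ (C₁ * y) ^ n := pow_le_pow_left₀ hr hry n
      _ = C₁ ^ n * y ^ (n : ℝ) := by rw [mul_pow, Real.rpow_natCast]
  have h5 : y ^ (14 * n : ℝ) * y ^ (14 * n : ℝ) * r ^ n ≤ C₁ ^ n * y ^ (29 * n : ℝ) := by
    calc y ^ (14 * n : ℝ) * y ^ (14 * n : ℝ) * r ^ n
        ≤ y ^ (14 * n : ℝ) * y ^ (14 * n : ℝ) * (C₁ ^ n * y ^ (n : ℝ)) :=
          mul_le_mul_of_nonneg_left hrn' (by positivity)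
      _ = C₁ ^ n * (y ^ (14 * n : ℝ) * y ^ (14 * n : ℝ) * y ^ (n : ℝ)) := by ring
      _ = C₁ ^ n * y ^ (29 * n : ℝ) := by
          rw [← Real.rpow_add hy0, ← Real.rpow_add hy0]
          congr 2
          ring
  have h6 : y ^ (14 * n : ℝ) * y ^ (14 * n : ℝ) * r ^ n * E ≤ C₁ ^ n * C₇ := by
    calc y ^ (14 * n : ℝ) * y ^ (14 * n : ℝ) * r ^ n * E
        ≤ C₁ ^ n * y ^ (29 * n : ℝ) * E := mul_le_mul_of_nonneg_right h5 hE
      _ = C₁ ^ n * (y ^ (29 * n : ℝ) * E) := by ring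
      _ ≤ C₁ ^ n * C₇ := mul_le_mul_of_nonneg_left hexp (by positivity)
  have h4 : (C₆ * y ^ (14 * n : ℝ)) *
      ((C₆ * y ^ (14 * n : ℝ)) * (M * r ^ n * (CT * r ^ n * E))) ≤
      CT * C₆ ^ 2 * C₁ ^ n * C₇ * r ^ n * M := by
    calc (C₆ * y ^ (14 * n : ℝ)) *
          ((C₆ * y ^ (14 * n : ℝ)) * (M * r ^ n * (CT * r ^ n * E)))
        = CT * C₆ ^ 2 * r ^ n * M * (y ^ (14 * n : ℝ) * y ^ (14 * n : ℝ) * r ^ n * E) := by
          ring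
      _ ≤ CT * C₆ ^ 2 * r ^ n * M * (C₁ ^ n * C₇) :=
          mul_le_mul_of_nonneg_left h6 (by positivity)
      _ = CT * C₆ ^ 2 * C₁ ^ n * C₇ * r ^ n * M := by ring
  have h7 : 0 ≤ CT * C₆ ^ 2 * C₁ ^ n * C₇ * r ^ n * M := le_trans (by positivity) h4
  calc W * S ≤ y ^ (3 * n : ℝ) * (CT * C₆ ^ 2 * C₁ ^ n * C₇ * r ^ n * M) :=
        mul_le_mul hW3 ((hS.trans h2).trans h4) hS0 (by positivity)
    _ ≤ y ^ (n * (3 + ε)) * (CT * C₆ ^ 2 * C₁ ^ n * C₇ * r ^ n * M) :=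
        mul_le_mul_of_nonneg_right h3 h7
    _ = CT * C₆ ^ 2 * C₁ ^ n * C₇ * y ^ (n * (3 + ε)) * r ^ n * M := by ring

theorem num_main (n : ℕ) (C₁ C₂ CH y r M W S δ ε : ℝ) (hC₁ : 0 ≤ C₁) (hC₂ : 0 ≤ C₂)
    (hδε : δ ≤ ε / 14) (hε : 0 ≤ ε) (hy : 1 ≤ y) (hr : 1 ≤ r) (hM : 0 ≤ M)
    (hW3 : W = y ^ (3 * n - 3 * n * δ))
    (hS : S ≤ CH * y ^ (4 * n * δ) *
      (CH * y ^ (4 * n * δ) + 2 * (CH * y ^ (4 * n * δ) * r ^ n))) :
    W * (C₂ * (C₁ * y ^ (3 * n * δ)) * M * S) ≤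
      3 * C₂ * C₁ * CH ^ 2 * y ^ (n * (3 + ε)) * r ^ n * M := by
  have hy0 : 0 < y := by linarith
  have hr0 : 0 < r := by linarith
  have hrn : (1 : ℝ) ≤ r ^ n := one_le_pow₀ hr
  have hW0 : 0 < W := by rw [hW3]; exact Real.rpow_pos_of_pos hy0 _
  have h8 : 0 < y ^ (8 * n * δ) := Real.rpow_pos_of_pos hy0 _
  have h30 : 0 < y ^ (3 * n * δ) := Real.rpow_pos_of_pos hy0 _
  have h3 : CH * y ^ (4 * n * δ) *
      (CH * y ^ (4 * n * δ) + 2 * (CH * y ^ (4 * n * δ) * r ^ n)) ≤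
      3 * CH ^ 2 * y ^ (8 * n * δ) * r ^ n := by
    have e : y ^ (4 * n * δ) * y ^ (4 * n * δ) = y ^ (8 * n * δ) := by
      rw [← Real.rpow_add hy0]; congr 1; ring
    have h4 : 0 ≤ CH ^ 2 * y ^ (8 * n * δ) := by positivity
    calc CH * y ^ (4 * n * δ) * (CH * y ^ (4 * n * δ) + 2 * (CH * y ^ (4 * n * δ) * r ^ n))
        = CH ^ 2 * (y ^ (4 * n * δ) * y ^ (4 * n * δ)) * (1 + 2 * r ^ n) := by ring
      _ = CH ^ 2 * y ^ (8 * n * δ) * (1 + 2 * r ^ n) := by rw [e]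
      _ ≤ CH ^ 2 * y ^ (8 * n * δ) * (3 * r ^ n) :=
          mul_le_mul_of_nonneg_left (by linarith) h4
      _ = 3 * CH ^ 2 * y ^ (8 * n * δ) * r ^ n := by ring
  have h4 := hS.trans h3
  have h5 : y ^ (3 * n + 8 * n * δ) ≤ y ^ (n * (3 + ε)) := by
    refine Real.rpow_le_rpow_of_exponent_le hy ?_
    have : (n : ℝ) * δ ≤ n * (ε / 14) := mul_le_mul_of_nonneg_left hδε (by positivity)
    have h0 : 0 ≤ (n : ℝ) * ε := by positivity
    linarith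
  have h6 : y ^ (3 * n - 3 * n * δ) * y ^ (3 * n * δ) * y ^ (8 * n * δ) =
      y ^ (3 * n + 8 * n * δ) := by
    rw [← Real.rpow_add hy0, ← Real.rpow_add hy0]
    congr 1
    ring
  calc W * (C₂ * (C₁ * y ^ (3 * n * δ)) * M * S)
      ≤ W * (C₂ * (C₁ * y ^ (3 * n * δ)) * M * (3 * CH ^ 2 * y ^ (8 * n * δ) * r ^ n)) :=
        mul_le_mul_of_nonneg_left (mul_le_mul_of_nonneg_left h4 (by positivity)) hW0.le
    _ = 3 * C₂ * C₁ * CH ^ 2 *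
          (y ^ (3 * n - 3 * n * δ) * y ^ (3 * n * δ) * y ^ (8 * n * δ)) * r ^ n * M := by
        rw [hW3]; ring
    _ = 3 * C₂ * C₁ * CH ^ 2 * y ^ (3 * n + 8 * n * δ) * r ^ n * M := by rw [h6]
    _ ≤ 3 * C₂ * C₁ * CH ^ 2 * y ^ (n * (3 + ε)) * r ^ n * M := by
        refine mul_le_mul_of_nonneg_right (mul_le_mul_of_nonneg_right
          (mul_le_mul_of_nonneg_left h5 (by positivity)) (by positivity)) hM

theorem num_block (n : ℕ) (C₃ C₄ C₅ y r A η δ : ℝ) (hn : 1 ≤ (n : ℝ)) (hC₃ : 0 ≤ C₃)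
    (hC₄ : 0 ≤ C₄) (hC₅ : 0 ≤ C₅) (hδ : 0 ≤ δ) (hy : 1 ≤ y) (hr : 0 ≤ r) (hA : 1 ≤ A)
    (hηA : η * A ≤ y ^ (3 * n * δ)) (hlog : (1 + Real.log A) ^ 3 ≤ C₅ * y ^ δ) :
    C₃ * (1 + η * A) * (1 + Real.log A) ^ 3 ≤ (C₃ + C₄) * 2 * C₅ * y ^ (4 * n * δ) ∧
    C₄ * r ^ n * (1 + η * A) * (1 + Real.log A) ^ 3 ≤
      (C₃ + C₄) * 2 * C₅ * y ^ (4 * n * δ) * r ^ n := by
  have hy0 : 0 < y := by linarith
  have h1 : 1 ≤ y ^ (3 * n * δ) := Real.one_le_rpow hy (by positivity)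
  have h4 : 0 < y ^ (4 * n * δ) := Real.rpow_pos_of_pos hy0 _
  have hL : 1 + η * A ≤ 2 * y ^ (3 * n * δ) := by linarith
  have hlog0 : 0 ≤ (1 + Real.log A) ^ 3 := by
    have := Real.log_nonneg hA
    positivity
  have hT : (1 + η * A) * (1 + Real.log A) ^ 3 ≤ 2 * C₅ * y ^ (4 * n * δ) := by
    calc (1 + η * A) * (1 + Real.log A) ^ 3 ≤ (2 * y ^ (3 * n * δ)) * (C₅ * y ^ δ) :=
          mul_le_mul hL hlog hlog0 (by linarith)
      _ = 2 * C₅ * (y ^ (3 * n * δ) * y ^ δ) := by ring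
      _ ≤ 2 * C₅ * y ^ (4 * n * δ) := by
          refine mul_le_mul_of_nonneg_left ?_ (by positivity)
          rw [← Real.rpow_add hy0]
          refine Real.rpow_le_rpow_of_exponent_le hy ?_
          have : δ ≤ n * δ := le_mul_of_one_le_left hδ hn
          linarith
  constructor
  · calc C₃ * (1 + η * A) * (1 + Real.log A) ^ 3
        = C₃ * ((1 + η * A) * (1 + Real.log A) ^ 3) := by ring
      _ ≤ C₃ * (2 * C₅ * y ^ (4 * n * δ)) := mul_le_mul_of_nonneg_left hT hC₃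
      _ ≤ (C₃ + C₄) * (2 * C₅ * y ^ (4 * n * δ)) :=
          mul_le_mul_of_nonneg_right (by linarith) (by positivity)
      _ = (C₃ + C₄) * 2 * C₅ * y ^ (4 * n * δ) := by ring
  · calc C₄ * r ^ n * (1 + η * A) * (1 + Real.log A) ^ 3
        = C₄ * r ^ n * ((1 + η * A) * (1 + Real.log A) ^ 3) := by ring
      _ ≤ C₄ * r ^ n * (2 * C₅ * y ^ (4 * n * δ)) :=
          mul_le_mul_of_nonneg_left hT (by positivity)
      _ ≤ (C₃ + C₄) * r ^ n * (2 * C₅ * y ^ (4 * n * δ)) :=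
          mul_le_mul_of_nonneg_right (mul_le_mul_of_nonneg_right (by linarith) (by positivity))
            (by positivity)
      _ = (C₃ + C₄) * 2 * C₅ * y ^ (4 * n * δ) * r ^ n := by ring

/-! ### The indices -/

/-- the facts on the indices -/
theorem index_facts (hEMB : T_EMB k) (hW10 : T_W10 k) (R : Ch k) (C₁ r A M : ℝ) (hC₁ : 1 ≤ C₁)
    (hr : 1 ≤ r) (x : Ix k) (c : ℝ) (hx : Iv R C₁ r A x)
    (hc : c ^ 2 * nm x.2.1.1 ^ 4 * nm (den x.2.2) ^ 2 * nn r x.1 ≤ M) :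
    1 ≤ nm x.2.1.1 ∧ 1 ≤ nm (den x.2.2) ∧ nn r x.1 ≤ C₁ * A ∧ c ^ 2 ≤ M * r ^ dg k ∧
      nm x.2.1.1 * nn r x.1 ≤ 2 * C₁ * 2 ^ Nat.log 2 (Ideal.absNorm (den x.2.2)) ∧
      nm x.2.1.1 * 2 ^ Nat.log 2 (Ideal.absNorm (den x.2.2)) ≤ A := by
  have hlow := nn_lower hEMB hW10 R r x.1 hr hx.wm
  obtain ⟨-, -, -, -, -, -, -, -, -, -, hnm, hden⟩ := hEMB
  have hr0 : 0 < r := by linarith
  have hC₁0 : 0 ≤ C₁ := by linarith
  have h2 : 1 ≤ nm x.2.1.1 := (hnm _ hx.f).1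
  have h3 : 1 ≤ nm (den x.2.2) := (hnm _ (hden x.2.2 0).1).1
  have hn0 : 0 < nn r x.1 := lt_of_lt_of_le (by positivity) hlow
  have hm : Ideal.absNorm (den x.2.2) ≠ 0 := by
    intro h0
    unfold nm at h3
    rw [h0] at h3
    norm_num at h3
  have hlog1 : (2 : ℝ) ^ Nat.log 2 (Ideal.absNorm (den x.2.2)) ≤ nm (den x.2.2) := by
    unfold nm
    exact_mod_cast Nat.pow_log_le_self 2 hm
  have hlog2 : nm (den x.2.2) ≤ 2 * 2 ^ Nat.log 2 (Ideal.absNorm (den x.2.2)) := by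
    have := Nat.lt_pow_succ_log_self (b := 2) (by norm_num) (Ideal.absNorm (den x.2.2))
    have h2 : Ideal.absNorm (den x.2.2) ≤ 2 * 2 ^ Nat.log 2 (Ideal.absNorm (den x.2.2)) := by
      rw [pow_succ] at this
      omega
    unfold nm
    exact_mod_cast h2
  have hsh := hx.sh
  have hle := hx.le
  refine ⟨h2, h3, ?_, ?_, ?_, ?_⟩
  · calc nn r x.1 ≤ nm x.2.1.1 * nn r x.1 := le_mul_of_one_le_left hn0.le h2
      _ ≤ C₁ * nm (den x.2.2) := hsh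
      _ ≤ C₁ * (nm x.2.1.1 * nm (den x.2.2)) :=
          mul_le_mul_of_nonneg_left (le_mul_of_one_le_left (by linarith) h2) hC₁0
      _ ≤ C₁ * A := mul_le_mul_of_nonneg_left hle hC₁0
  · have h5 : (1 : ℝ) ≤ nm x.2.1.1 ^ 4 * nm (den x.2.2) ^ 2 := by
      have := one_le_pow₀ (n := 4) h2
      have := one_le_pow₀ (n := 2) h3
      nlinarith
    have h6 : c ^ 2 * (1 / r ^ dg k) ≤ M := by
      calc c ^ 2 * (1 / r ^ dg k) ≤ c ^ 2 * nn r x.1 :=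
            mul_le_mul_of_nonneg_left hlow (by positivity)
        _ ≤ c ^ 2 * nn r x.1 * (nm x.2.1.1 ^ 4 * nm (den x.2.2) ^ 2) :=
            le_mul_of_one_le_right (mul_nonneg (by positivity) hn0.le) h5
        _ = c ^ 2 * nm x.2.1.1 ^ 4 * nm (den x.2.2) ^ 2 * nn r x.1 := by ring
        _ ≤ M := hc
    rw [mul_one_div, div_le_iff₀ (by positivity)] at h6
    exact h6
  · have h4 := mul_le_mul_of_nonneg_left hlog2 hC₁0
    linarith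
  · have h4 := mul_le_mul_of_nonneg_left hlog1 (by linarith : 0 ≤ nm x.2.1.1)
    linarith

/-- The sums over the pairs of indices. -/
theorem step_bound (I : Finset (Ix k)) (J : Ix k → Finset (Ix k)) (hJ : ∀ x, ∀ y ∈ J x, y ∈ I)
    (c : Ix k → ℝ) (hc0 : ∀ x, 0 ≤ c x) (K V T : ℝ) (hV : 0 ≤ V) (hT : 0 ≤ T)
    (hcK : ∀ x ∈ I, c x ^ 2 ≤ K) (f g : Ix k → Ix k → ℝ) (hfg : ∀ x y, f x y ≤ g x y + T) :
    ∑ x ∈ I, ∑ y ∈ J x, c x * c y * (V * f x y) ≤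
      V * (∑ x ∈ I, ∑ y ∈ J x, c x * c y * g x y) +
      V * (∑ x ∈ I, ∑ y ∈ J x, K * T) := by
  rw [Finset.mul_sum, Finset.mul_sum, ← Finset.sum_add_distrib]
  refine Finset.sum_le_sum fun x hx => ?_
  rw [Finset.mul_sum, Finset.mul_sum, ← Finset.sum_add_distrib]
  refine Finset.sum_le_sum fun y hy => ?_
  have hyI : y ∈ I := hJ x y hy
  have h1 := hfg x y
  have h2 : c x * c y ≤ K := by
    have a1 := hcK x hx
    have a2 := hcK y hyI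
    nlinarith [sq_nonneg (c x - c y)]
  have h3 : 0 ≤ c x * c y := mul_nonneg (hc0 x) (hc0 y)
  calc c x * c y * (V * f x y) = V * (c x * c y * f x y) := by ring
    _ ≤ V * (c x * c y * (g x y + T)) :=
        mul_le_mul_of_nonneg_left (mul_le_mul_of_nonneg_left h1 h3) hV
    _ = V * (c x * c y * g x y) + V * (c x * c y * T) := by ring
    _ ≤ V * (c x * c y * g x y) + V * (K * T) := by
        have := mul_le_mul_of_nonneg_left (mul_le_mul_of_nonneg_right h2 hT) hV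
        linarith

/-- The sum over the pairs of blocks. -/
theorem block_sum (hEMB : T_EMB k) (hW10 : T_W10 k) (R : Ch k) (C₁ r A η H0 H1 : ℝ)
    (hr : 1 ≤ r) (hη : 0 ≤ η)
    (B : Finset (V2 k × Ideal (𝓞 k) × ℕ))
    (J : V2 k × Ideal (𝓞 k) × ℕ → Finset (V2 k × Ideal (𝓞 k) × ℕ))
    (hBB : ∀ a ∈ B, a.1 ∈ R.W ∧ a.2.1 ≠ ⊥ ∧
      nm a.2.1 * nn r a.1 ≤ 2 * C₁ * 2 ^ a.2.2 ∧ nm a.2.1 * 2 ^ a.2.2 ≤ A)
    (hJ : ∀ a, ∀ b ∈ J a, b ∈ B ∧ b.1 ≠ a.1)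
    (hHG : ∀ T : Finset (V2 k × Ideal (𝓞 k) × ℕ), (∀ a ∈ T, a.1 ∈ R.W ∧ a.1.2 ≠ 0 ∧
      a.2.1 ≠ ⊥ ∧ nm a.2.1 * nn r a.1 ≤ 2 * C₁ * 2 ^ a.2.2 ∧ nm a.2.1 * 2 ^ a.2.2 ≤ A) →
      ∑ a ∈ T, hw r η a ≤ H0)
    (hH1 : ∀ T : Finset (V2 k × Ideal (𝓞 k) × ℕ), (∀ a ∈ T, a.1 ∈ R.W ∧ a.1.2 = 0 ∧
      a.2.1 ≠ ⊥ ∧ nm a.2.1 * nn r a.1 ≤ 2 * C₁ * 2 ^ a.2.2 ∧ nm a.2.1 * 2 ^ a.2.2 ≤ A) →
      ∑ a ∈ T, hw r η a ≤ H1) :
    ∑ a ∈ B, ∑ b ∈ J a, hw r η a * hw r η b ≤ H0 * (H0 + 2 * H1) := by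
  classical
  have hr0 : 0 < r := by linarith
  have hwn : ∀ a ∈ B, 0 ≤ hw r η a := by
    intro a ha
    obtain ⟨hw1, -⟩ := hBB a ha
    have hp : 0 < nn r a.1 := lt_of_lt_of_le (by positivity) (nn_lower hEMB hW10 R r a.1 hr hw1)
    unfold hw
    positivity
  refine sum_pairs B (B.filter (fun a => ¬ a.1.2 = 0)) (B.filter (fun a => a.1.2 = 0)) J
    (fun a => a.1) (fun a => a.1.2 = 0) (fun a => Finset.mem_filter)
    (fun a => Finset.mem_filter) (fun a _ b hb => hJ a b hb) ?_ (hw r η) hwn _ _ ?_ ?_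
  · intro a ha b hb hqa hqb
    exact (hW10 R r a.1 hr0 (hBB a ha).1 hqa).1 b.1 (hBB b hb).1 hqb
  · refine hHG _ ?_
    intro a ha
    obtain ⟨ha1, ha2⟩ := Finset.mem_filter.1 ha
    obtain ⟨h3, h4, h5, h6⟩ := hBB a ha1
    exact ⟨h3, ha2, h4, h5, h6⟩
  · refine hH1 _ ?_
    intro a ha
    obtain ⟨ha1, ha2⟩ := Finset.mem_filter.1 ha
    obtain ⟨h3, h4, h5, h6⟩ := hBB a ha1
    exact ⟨h3, ha2, h4, h5, h6⟩

theorem card_bound (I : Finset (Ix k)) (J : Ix k → Finset (Ix k)) (hJ : ∀ x, ∀ y ∈ J x, y ∈ I)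
    (T : ℝ) (hT : 0 ≤ T) :
    ∑ x ∈ I, ∑ y ∈ J x, T ≤ (I.card : ℝ) * ((I.card : ℝ) * T) := by
  refine (Finset.sum_le_card_nsmul I _ ((I.card : ℝ) * T) ?_).trans (le_of_eq (nsmul_eq_mul _ _))
  intro x _
  rw [Finset.sum_const, nsmul_eq_mul]
  refine mul_le_mul_of_nonneg_right ?_ hT
  exact_mod_cast Finset.card_le_card fun y hy => hJ x y hy

end

variable (k : Type) [Field k] [NumberField k] [IsTotallyReal k]

/-- Row A_OFF. -/
theorem pf_OFF (hEMB : T_EMB k) (hNRD : T_NRD k) (hPN3 : T_PN3 k) (hTAL : T_TAL k)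
    (hNI : T_NI k) (hGRP : T_GRP k) (hHG : T_HG k) (hH1 : T_H1 k) (hW10 : T_W10 k) :
    T_OFF k := by
  classical
  intro R C₁ hC₁ ε hε
  obtain ⟨CT, hCT, hTAL⟩ := hTAL
  obtain ⟨C₆, hC₆, hNI⟩ := hNI R C₁ hC₁
  obtain ⟨C₂, hC₂, hGRP⟩ := hGRP R C₁ hC₁
  obtain ⟨C₃, hC₃, hHG⟩ := hHG R C₁ hC₁
  obtain ⟨C₄, hC₄, hH1⟩ := hH1 R C₁ hC₁
  have hn0 : 0 < dg k := hEMB.2.1
  have hn1 : (1 : ℝ) ≤ (dg k : ℝ) := by exact_mod_cast hn0
  refine ⟨min (1 / 8) (ε / 14), by positivity, fun δ hδ hδd => ?_⟩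
  have hδ8 : δ ≤ 1 / 8 := hδd.trans (min_le_left _ _)
  have hδε : δ ≤ ε / 14 := hδd.trans (min_le_right _ _)
  obtain ⟨C₇, hC₇, hexp⟩ := pow_exp δ (29 * dg k) hδ
  have hC₁0 : 0 < C₁ := by linarith
  have hC₆0 : 0 ≤ C₆ := by linarith
  have hC₅0 : 0 ≤ (1 + 6 * (dg k : ℝ) / δ) ^ 3 := by positivity
  refine ⟨3 * C₂ * C₁ * ((C₃ + C₄) * 2 * (1 + 6 * (dg k : ℝ) / δ) ^ 3) ^ 2 +
    CT * C₆ ^ 2 * C₁ ^ dg k * C₇, by positivity, ?_⟩
  intro y r A M P I c μ hy hr hry hA hAy hM hI hc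
  have hy0 : 0 < y := by linarith
  have hr0 : 0 < r := by linarith
  have hA0 : 0 < A := by linarith
  have hW1 : 1 ≤ y ^ (1 - δ) := Real.one_le_rpow hy (by linarith)
  have hW0 : 0 < y ^ (1 - δ) := by linarith
  have hη0 : 0 < y ^ (2 * δ - 1) := Real.rpow_pos_of_pos hy0 _
  have hfacts := fun (x : Ix k) (hx : x ∈ I) =>
    index_facts hEMB hW10 R C₁ r A M hC₁ hr x ‖c x‖ (hI x hx) (hc x hx)
  have hηn : (y ^ (2 * δ - 1)) ^ dg k = y ^ (dg k * (2 * δ - 1)) := by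
    rw [← Real.rpow_natCast, ← Real.rpow_mul hy0.le]
    congr 1
    ring
  have hηn0 : 0 < (y ^ (2 * δ - 1)) ^ dg k := pow_pos hη0 _
  have hηA : (y ^ (2 * δ - 1)) ^ dg k * A ≤ y ^ (3 * dg k * δ) := by
    calc (y ^ (2 * δ - 1)) ^ dg k * A
        ≤ y ^ (dg k * (2 * δ - 1)) * y ^ (dg k * (1 + δ)) := by
          rw [hηn]
          exact mul_le_mul_of_nonneg_left hAy (Real.rpow_pos_of_pos hy0 _).le
      _ = y ^ (3 * dg k * δ) := by rw [← Real.rpow_add hy0]; congr 1; ring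
  have hΛ : ∀ x ∈ I, (y ^ (2 * δ - 1)) ^ dg k * nn r x.1 ≤ C₁ * y ^ (3 * dg k * δ) := by
    intro x hx
    calc (y ^ (2 * δ - 1)) ^ dg k * nn r x.1
        ≤ (y ^ (2 * δ - 1)) ^ dg k * (C₁ * A) :=
          mul_le_mul_of_nonneg_left (hfacts x hx).2.2.1 hηn0.le
      _ = C₁ * ((y ^ (2 * δ - 1)) ^ dg k * A) := by ring
      _ ≤ C₁ * y ^ (3 * dg k * δ) := mul_le_mul_of_nonneg_left hηA hC₁0.le
  have hE0 : 0 < Real.exp (-(π * y ^ (2 * δ) / 2)) := Real.exp_pos _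
  have hWη : (y ^ (1 - δ)) ^ 2 * (y ^ (2 * δ - 1)) ^ 2 = y ^ (2 * δ) := by
    rw [← mul_pow, ← Real.rpow_add hy0, ← Real.rpow_natCast, ← Real.rpow_mul hy0.le]
    congr 1
    push_cast
    ring
  have hps : ∀ ξ : RF k, ps (y ^ (1 - δ)) r ξ ≤ nz r (y ^ (2 * δ - 1)) ξ +
      CT * r ^ dg k * Real.exp (-(π * y ^ (2 * δ) / 2)) := by
    intro ξ
    have h := (hTAL (y ^ (1 - δ)) r (y ^ (2 * δ - 1)) ξ hW1 hr hη0.le).2
    have e : Real.exp (-(π * (y ^ (1 - δ)) ^ 2 * (y ^ (2 * δ - 1)) ^ 2 / 2)) =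
        Real.exp (-(π * y ^ (2 * δ) / 2)) := by
      rw [mul_assoc π, hWη]
    rw [e] at h
    exact h
  have hW3 : (y ^ (1 - δ)) ^ (3 * dg k) = y ^ (3 * dg k - 3 * dg k * δ) := by
    rw [← Real.rpow_natCast, ← Real.rpow_mul hy0.le]
    congr 1
    push_cast
    ring
  have hW3' : (y ^ (1 - δ)) ^ (3 * dg k) ≤ y ^ (3 * dg k : ℝ) := by
    rw [hW3]
    refine Real.rpow_le_rpow_of_exponent_le hy ?_
    have hnδ : 0 ≤ (dg k : ℝ) * δ := by positivity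
    linarith
  have hcard : (I.card : ℝ) ≤ C₆ * y ^ (14 * dg k : ℝ) := by
    refine (hNI r A I hr hA hI).trans (mul_le_mul_of_nonneg_left ?_ hC₆0)
    calc A ^ 7 ≤ (y ^ (dg k * (1 + δ))) ^ 7 := pow_le_pow_left₀ hA0.le hAy 7
      _ = y ^ (dg k * (1 + δ) * 7) := by
          rw [← Real.rpow_natCast, ← Real.rpow_mul hy0.le]
          norm_num
      _ ≤ y ^ (14 * dg k : ℝ) := by
          refine Real.rpow_le_rpow_of_exponent_le hy ?_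
          have : (dg k : ℝ) * δ ≤ dg k * 1 := mul_le_mul_of_nonneg_left (by linarith) (by positivity)
          linarith
  have hΛ1 : (1 : ℝ) ≤ C₁ * y ^ (3 * dg k * δ) := by
    have h1 : 1 ≤ y ^ (3 * dg k * δ) := Real.one_le_rpow hy (by positivity)
    nlinarith
  have hgrp := hGRP r (y ^ (2 * δ - 1)) (C₁ * y ^ (3 * dg k * δ)) A M I (fun x => ‖c x‖) μ hr
    hη0 hΛ1 hA hM hI hΛ (fun x _ => norm_nonneg _) hc
  have hlogA := log_pow_le δ (dg k) hδ (by linarith) (by positivity) y A hy hA hAy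
  obtain ⟨hT3, hT4⟩ := num_block (dg k) C₃ C₄ _ y r A ((y ^ (2 * δ - 1)) ^ dg k) δ hn1 hC₃ hC₄
    hC₅0 hδ.le hy hr0.le hA hηA hlogA
  have hS := block_sum hEMB hW10 R C₁ r A ((y ^ (2 * δ - 1)) ^ dg k) _ _ hr hηn0.le
    (I.image blk) (fun a => (I.image blk).filter (fun a' => a'.1 ≠ a.1))
    (by
      intro a ha
      obtain ⟨x, hx, rfl⟩ := Finset.mem_image.1 ha
      obtain ⟨-, -, -, -, h5, h6⟩ := hfacts x hx
      exact ⟨(hI x hx).wm, (hI x hx).f, h5, h6⟩)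
    (fun a b hb => Finset.mem_filter.1 hb)
    (fun T hT => le_trans (hHG r A _ T hr hA hηn0.le hT) hT3)
    (fun T hT => le_trans (hH1 r A _ T hr hA hηn0.le hT) hT4)
  have hmain := num_main (dg k) C₁ C₂ _ y r M _ _ δ ε hC₁0.le hC₂ hδε hε.le hy hr hM hW3 hS
  have htail := num_tail (dg k) C₁ C₆ C₇ CT y r M _ _ _ _ ε hC₁0.le hC₆0 hCT hε.le hy hr0.le hry
    hM hE0.le
    (Finset.sum_nonneg fun x _ => Finset.sum_nonneg fun x' _ => by positivity)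
    hW3' (Nat.cast_nonneg I.card) hcard (hexp y hy)
    (card_bound I (fun x => I.filter (fun x' => x'.1 ≠ x.1))
      (fun x y hy => (Finset.mem_filter.1 hy).1)
      (M * r ^ dg k * (CT * r ^ dg k * Real.exp (-(π * y ^ (2 * δ) / 2)))) (by positivity))
  have hfirst := (interchange hPN3 (y ^ (1 - δ)) r P hW0 hr0 I
    (fun x => I.filter (fun x' => x'.1 ≠ x.1)) c (lam μ)).trans
    (step_bound I (fun x => I.filter (fun x' => x'.1 ≠ x.1))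
      (fun x y hy => (Finset.mem_filter.1 hy).1) (fun x => ‖c x‖) (fun x => norm_nonneg _)
      (M * r ^ dg k) ((y ^ (1 - δ)) ^ (3 * dg k))
      (CT * r ^ dg k * Real.exp (-(π * y ^ (2 * δ) / 2))) (by positivity) (by positivity)
      (fun x hx => (hfacts x hx).2.2.2.1) (fun x x' => ps (y ^ (1 - δ)) r (lam μ x - lam μ x'))
      (fun x x' => (nz r (y ^ (2 * δ - 1)) (lam μ x - lam μ x') : ℝ)) (fun x x' => hps _))
  refine hfirst.trans ?_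
  refine (add_le_add ((mul_le_mul_of_nonneg_left hgrp (by positivity)).trans hmain) htail).trans
    (le_of_eq ?_)
  ring

end Pool.Agent.H90.CM4
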