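import Pool.Agent.H89.CM4.Targets2

/-!
# Row B_LCN of `cm4_modules`: the number of the vectors of a lattice modulo the units
-/

set_option autoImplicit false
set_option linter.unusedSectionVars false

open MeasureTheory Set Filter NumberField NumberField.InfinitePlace Pool.Agent.H65.CM4
  Pool.Agent.H89.CM4
open scoped Real

namespace Pool.Agent.H90.CM4

section

variable {k : Type} [Field k] [NumberField k] [IsTotallyReal k]

theorem lcn_nr_nonneg (r : ℝ) (hr : 0 < r) (v : Pl k) (u : V2 k) : 0 ≤ nr r v u := by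
  unfold nr; positivity

theorem lcn_fst_sub (a b : V2 k) : (((a - b).1 : 𝓞 k) : k) = (a.1 : k) - (b.1 : k) := rfl

theorem lcn_snd_sub (a b : V2 k) : (((a - b).2 : 𝓞 k) : k) = (a.2 : k) - (b.2 : k) := rfl

theorem lcn_nr_sub (r : ℝ) (hr : 0 < r) (v : Pl k) (a b : V2 k) :
    nr r v (a - b) ≤ 2 * nr r v a + 2 * nr r v b := by
  unfold nr
  rw [lcn_fst_sub, lcn_snd_sub, map_sub, map_sub]
  generalize rv v (a.1 : k) = x
  generalize rv v (b.1 : k) = y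
  generalize rv v (a.2 : k) = z
  generalize rv v (b.2 : k) = w
  have h1 : (x - y) ^ 2 / r ≤ (2 * x ^ 2 + 2 * y ^ 2) / r :=
    div_le_div_of_nonneg_right (by nlinarith [sq_nonneg (x + y)]) hr.le
  have h2 : r * (z - w) ^ 2 ≤ r * (2 * z ^ 2 + 2 * w ^ 2) :=
    mul_le_mul_of_nonneg_left (by nlinarith [sq_nonneg (z + w)]) hr.le
  have h3 : (2 * x ^ 2 + 2 * y ^ 2) / r = 2 * (x ^ 2 / r) + 2 * (y ^ 2 / r) := by ring
  rw [h3] at h1
  linarith

theorem lcn_det_sub (u a b : V2 k) : det u (a - b) = det u a - det u b := by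
  unfold det
  simp only [Prod.fst_sub, Prod.snd_sub]
  ring

/-- the coordinate of a vector along `u` -/
noncomputable def lcx (u w : V2 k) : k := by
  classical
  exact if (u.1 : k) ≠ 0 then (w.1 : k) / u.1 else (w.2 : k) / u.2

theorem lcx_sub (u a b : V2 k) : lcx u (a - b) = lcx u a - lcx u b := by
  unfold lcx
  by_cases h : (u.1 : k) ≠ 0
  · rw [if_pos h, if_pos h, if_pos h, lcn_fst_sub, sub_div]
  · rw [if_neg h, if_neg h, if_neg h, lcn_snd_sub, sub_div]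

theorem lcx_par (u w : V2 k) (hu : u ≠ 0) (hd : det u w = 0) :
    (w.1 : k) = lcx u w * u.1 ∧ (w.2 : k) = lcx u w * u.2 := by
  have hd' : (u.1 : k) * w.2 = u.2 * w.1 := by
    have h : ((det u w : 𝓞 k) : k) = (u.1 : k) * w.2 - u.2 * w.1 := rfl
    rw [hd] at h
    have h0 : ((0 : 𝓞 k) : k) = 0 := rfl
    rw [h0] at h
    exact (sub_eq_zero.1 h.symm)
  unfold lcx
  by_cases h : (u.1 : k) ≠ 0
  · rw [if_pos h]
    refine ⟨(div_mul_cancel₀ _ h).symm, ?_⟩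
    rw [div_mul_eq_mul_div, eq_div_iff h, mul_comm (w.1 : k), ← hd', mul_comm]
  · rw [if_neg h]
    have h1 : (u.1 : k) = 0 := not_not.1 h
    have h2 : (u.2 : k) ≠ 0 := by
      intro h2
      refine hu (Prod.ext ?_ ?_)
      · exact (RingOfIntegers.ext h1)
      · exact (RingOfIntegers.ext h2)
    refine ⟨?_, (div_mul_cancel₀ _ h2).symm⟩
    rw [h1, zero_mul] at hd'
    rw [h1, mul_zero]
    exact (mul_eq_zero.1 hd'.symm).resolve_left h2

theorem lcx_nr (r : ℝ) (v : Pl k) (u w : V2 k) (hu : u ≠ 0) (hd : det u w = 0) :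
    nr r v w = rv v (lcx u w) ^ 2 * nr r v u := by
  obtain ⟨h1, h2⟩ := lcx_par u w hu hd
  unfold nr
  rw [h1, h2, map_mul, map_mul]
  ring

/-- the product of the bounds at the places -/
theorem lcn_prod (hcard : Fintype.card (Pl k) = dg k) (hn : 0 < dg k) (c z : ℝ) (hz : 0 ≤ z) :
    ∏ _v : Pl k, (c * Real.sqrt (z ^ (1 / (dg k : ℝ)))) = c ^ dg k * Real.sqrt z := by
  rw [Finset.prod_const, Finset.card_univ, hcard, mul_pow]
  congr 1
  have hn' : (dg k : ℝ) ≠ 0 := by exact_mod_cast hn.ne'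
  rw [Real.sqrt_eq_rpow, Real.sqrt_eq_rpow, ← Real.rpow_natCast, ← Real.rpow_mul hz,
    ← Real.rpow_mul hz]
  congr 1
  field_simp

/-- a bound of the number of values -/
theorem lcn_values (hcard : Fintype.card (Pl k) = dg k) (hn : 0 < dg k) (hNRD : T_NRD k)
    (CB Cx : ℝ) (hCB : 1 ≤ CB)
    (hBXC : ∀ (m : ℝ) (g : Pl k → ℝ) (F : Finset k), 0 < m → (∀ v, 0 ≤ g v) →
      (∀ x ∈ F, ∀ y ∈ F, x ≠ y → m ≤ Nr (x - y) ∧ ∀ v, |rv v (x - y)| ≤ g v) →
      (F.card : ℝ) ≤ Cx * (1 + (∏ v : Pl k, g v) / m))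
    (r D X μ : ℝ) (M : La k) (u1 : V2 k) (G : Finset (V2 k)) (hr : 0 < r) (hD : 0 < D)
    (hμ : 0 < μ) (hX : 0 < X)
    (hM : ∀ u ∈ M, ∀ v ∈ M, det u v ≠ 0 → D ≤ Nr (det u v : k)) (hu1 : u1 ∈ M)
    (h1 : ∀ v : Pl k, nr r v u1 ≤ CB * μ ^ (1 / (dg k : ℝ)))
    (hG : ∀ u ∈ G, u ∈ M ∧ ∀ v : Pl k, nr r v u ≤ CB * X ^ (1 / (dg k : ℝ)))
    (V : Finset k) (hV : ∀ x ∈ V, ∃ u ∈ G, ((det u1 u : 𝓞 k) : k) = x) :
    (V.card : ℝ) ≤ Cx * (1 + (2 * CB) ^ dg k * Real.sqrt (μ * X) / D) := by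
  have h := hBXC D (fun _ => 2 * CB * Real.sqrt ((μ * X) ^ (1 / (dg k : ℝ)))) V hD
    (fun v => by positivity) ?_
  · rw [lcn_prod hcard hn _ _ (by positivity)] at h
    exact h
  intro x hx y hy hxy
  obtain ⟨a, ha, rfl⟩ := hV x hx
  obtain ⟨b, hb, rfl⟩ := hV y hy
  obtain ⟨haM, ha⟩ := hG a ha
  obtain ⟨hbM, hb⟩ := hG b hb
  have e : ((det u1 a : 𝓞 k) : k) - ((det u1 b : 𝓞 k) : k) = ((det u1 (a - b) : 𝓞 k) : k) := by
    rw [lcn_det_sub]; rfl
  rw [e]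
  have hne : det u1 (a - b) ≠ 0 := by
    intro h0
    rw [lcn_det_sub, sub_eq_zero] at h0
    exact hxy (by rw [h0])
  refine ⟨hM u1 hu1 (a - b) (M.sub_mem haM hbM) hne, fun v => ?_⟩
  have h2 := (hNRD r u1 (a - b) hr).1 v
  have h3 := lcn_nr_sub r hr v a b
  have h4 := ha v
  have h5 := hb v
  have h6 := h1 v
  have h7 := lcn_nr_nonneg r hr v (a - b)
  have e2 : (μ * X) ^ (1 / (dg k : ℝ)) = μ ^ (1 / (dg k : ℝ)) * X ^ (1 / (dg k : ℝ)) :=
    Real.mul_rpow hμ.le hX.le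
  rw [e2]
  have hp : 0 ≤ μ ^ (1 / (dg k : ℝ)) := by positivity
  have hq : 0 ≤ X ^ (1 / (dg k : ℝ)) := by positivity
  generalize μ ^ (1 / (dg k : ℝ)) = p at h6 hp ⊢
  generalize X ^ (1 / (dg k : ℝ)) = q at h4 h5 hq ⊢
  have h8 : rv v ((det u1 (a - b) : 𝓞 k) : k) ^ 2 ≤ (2 * CB) ^ 2 * (p * q) := by
    calc rv v ((det u1 (a - b) : 𝓞 k) : k) ^ 2 ≤ nr r v u1 * nr r v (a - b) := h2
      _ ≤ (CB * p) * (4 * (CB * q)) :=
          mul_le_mul h6 (by linarith) h7 (by positivity)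
      _ = (2 * CB) ^ 2 * (p * q) := by ring
  have h9 := Real.abs_le_sqrt h8
  rw [Real.sqrt_mul (by positivity), Real.sqrt_sq (by positivity)] at h9
  exact h9

/-- a bound of the size of a fibre -/
theorem lcn_fibre (hcard : Fintype.card (Pl k) = dg k) (hn : 0 < dg k)
    (CB Cx : ℝ) (hCB : 1 ≤ CB)
    (hBXC : ∀ (m : ℝ) (g : Pl k → ℝ) (F : Finset k), 0 < m → (∀ v, 0 ≤ g v) →
      (∀ x ∈ F, ∀ y ∈ F, x ≠ y → m ≤ Nr (x - y) ∧ ∀ v, |rv v (x - y)| ≤ g v) →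
      (F.card : ℝ) ≤ Cx * (1 + (∏ v : Pl k, g v) / m))
    (r X μ : ℝ) (M : La k) (u1 : V2 k) (G : Finset (V2 k)) (hr : 0 < r)
    (hμ : 0 < μ) (hX : 0 < X) (hne : u1 ≠ 0)
    (hmin : ∀ u ∈ M, u ≠ 0 → μ ≤ nn r u) (hnn : nn r u1 = μ)
    (h1 : ∀ v : Pl k, μ ^ (1 / (dg k : ℝ)) / CB ≤ nr r v u1)
    (hG : ∀ u ∈ G, u ∈ M ∧ ∀ v : Pl k, nr r v u ≤ CB * X ^ (1 / (dg k : ℝ)))
    (hG0 : ∀ u ∈ G, ∀ w ∈ G, det u1 (u - w) = 0) :
    (G.card : ℝ) ≤ Cx * (1 + (2 * CB) ^ dg k * Real.sqrt (X / μ)) := by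
  classical
  have hinj : Set.InjOn (lcx u1) (G : Set (V2 k)) := by
    intro a ha b hb hab
    have hd := hG0 a ha b hb
    obtain ⟨e1, e2⟩ := lcx_par u1 (a - b) hne hd
    have e3 : lcx u1 (a - b) = 0 := by rw [lcx_sub, hab, sub_self]
    rw [e3, zero_mul] at e1 e2
    have h0 : a - b = 0 := by
      refine Prod.ext ?_ ?_
      · exact RingOfIntegers.ext e1
      · exact RingOfIntegers.ext e2
    exact sub_eq_zero.1 h0
  rw [← Finset.card_image_of_injOn hinj]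
  have h := hBXC 1 (fun _ => 2 * CB * Real.sqrt ((X / μ) ^ (1 / (dg k : ℝ))))
    (G.image (lcx u1)) one_pos (fun v => by positivity) ?_
  · rw [lcn_prod hcard hn _ _ (by positivity), div_one] at h
    exact h
  intro x hx y hy hxy
  obtain ⟨a, haG, rfl⟩ := Finset.mem_image.1 hx
  obtain ⟨b, hbG, rfl⟩ := Finset.mem_image.1 hy
  obtain ⟨haM, ha⟩ := hG a haG
  obtain ⟨hbM, hb⟩ := hG b hbG
  have hd := hG0 a haG b hbG
  rw [← lcx_sub]
  have hab : a - b ≠ 0 := by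
    intro h0
    exact hxy (by rw [sub_eq_zero.1 h0])
  have hpl : ∀ v, nr r v (a - b) = rv v (lcx u1 (a - b)) ^ 2 * nr r v u1 :=
    fun v => lcx_nr r v u1 (a - b) hne hd
  constructor
  · have h2 : nn r (a - b) = Nr (lcx u1 (a - b)) ^ 2 * μ := by
      rw [← hnn]
      unfold nn Nr
      rw [← Finset.prod_pow, ← Finset.prod_mul_distrib]
      refine Finset.prod_congr rfl fun v _ => ?_
      rw [hpl v, sq_abs]
    have h3 := hmin _ (M.sub_mem haM hbM) hab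
    rw [h2] at h3
    have h4 : 1 ≤ Nr (lcx u1 (a - b)) ^ 2 := by
      by_contra h5
      push Not at h5
      have := mul_lt_mul_of_pos_right h5 hμ
      linarith
    have h5 : 0 ≤ Nr (lcx u1 (a - b)) := by
      unfold Nr
      exact Finset.prod_nonneg fun v _ => abs_nonneg _
    by_contra h6
    push Not at h6
    nlinarith
  · intro v
    have h3 := lcn_nr_sub r hr v a b
    have h4 := ha v
    have h5 := hb v
    have h6 := h1 v
    have e2 : (X / μ) ^ (1 / (dg k : ℝ)) = X ^ (1 / (dg k : ℝ)) / μ ^ (1 / (dg k : ℝ)) :=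
      Real.div_rpow hX.le hμ.le _
    rw [e2]
    have hp : 0 < μ ^ (1 / (dg k : ℝ)) := by positivity
    have hq : 0 ≤ X ^ (1 / (dg k : ℝ)) := by positivity
    have h7 := hpl v
    generalize μ ^ (1 / (dg k : ℝ)) = p at h6 hp ⊢
    generalize X ^ (1 / (dg k : ℝ)) = q at h4 h5 hq ⊢
    have h8 : rv v (lcx u1 (a - b)) ^ 2 ≤ (2 * CB) ^ 2 * (q / p) := by
      have h9 : rv v (lcx u1 (a - b)) ^ 2 * (p / CB) ≤ 4 * (CB * q) := by
        calc rv v (lcx u1 (a - b)) ^ 2 * (p / CB)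
            ≤ rv v (lcx u1 (a - b)) ^ 2 * nr r v u1 :=
              mul_le_mul_of_nonneg_left h6 (by positivity)
          _ = nr r v (a - b) := h7.symm
          _ ≤ 4 * (CB * q) := by linarith
      have hCB0 : 0 < CB := by linarith
      have e3 : (2 * CB) ^ 2 * (q / p) = 4 * (CB * q) / (p / CB) := by
        field_simp
        ring
      rw [e3, le_div_iff₀ (by positivity)]
      exact h9
    have h9 := Real.abs_le_sqrt h8
    rw [Real.sqrt_mul (by positivity), Real.sqrt_sq (by positivity)] at h9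
    exact h9

end

variable (k : Type) [Field k] [NumberField k] [IsTotallyReal k]

/-- Row B_LCN. -/
theorem pf_LCN (hEMB : T_EMB k) (hBXC : T_BXC k) (hBLV : T_BLV k) (hNRD : T_NRD k)
    (hFOR : T_FOR k) (hMIN : T_MIN k) : T_LCN k := by
  classical
  obtain ⟨hcard, hn, -⟩ := hEMB
  obtain ⟨Cx, hCx, hBXC⟩ := hBXC
  obtain ⟨CB, hCB, hBLV⟩ := hBLV
  obtain ⟨CM, hCM, hMIN⟩ := hMIN
  have hc1 : 1 ≤ (2 * CB) ^ dg k := one_le_pow₀ (by linarith)
  refine ⟨(Cx * (2 * (2 * CB) ^ dg k)) * (Cx * (2 * CB) ^ dg k), ?_, ?_⟩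
  · have h1 : 1 ≤ Cx * (2 * (2 * CB) ^ dg k) := by nlinarith
    have h2 : 1 ≤ Cx * (2 * CB) ^ dg k := by nlinarith
    nlinarith
  intro r D X M F hr hM hD hdet hX hF
  obtain ⟨u0, hu0M, hu0, hu0m, hmin, -⟩ := hMIN r M hr hM
  have hμ : 0 < mn r M := by
    rw [← hu0m]
    exact ((hNRD r u0 u0 hr).2.1 hu0).1
  have hX0 : 0 < X := lt_of_lt_of_le hμ hX
  -- the minimal vector
  obtain ⟨e0, he0⟩ := hBLV r u0 hr hu0
  have hu1M : ((e0 : 𝓞 k) • u0) ∈ M := M.smul_mem _ hu0M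
  have hu1n : nn r ((e0 : 𝓞 k) • u0) = mn r M := by
    rw [(hNRD r u0 u0 hr).2.2.2.1 e0, hu0m]
  have hunit : ∀ (e : (𝓞 k)ˣ) (u : V2 k), ((e⁻¹ : (𝓞 k)ˣ) : 𝓞 k) • ((e : 𝓞 k) • u) = u := by
    intro e u
    rw [smul_smul, Units.inv_mul, one_smul]
  have hu1 : ((e0 : 𝓞 k) • u0) ≠ 0 := by
    intro h0
    have h1 := hunit e0 u0
    rw [h0, smul_zero] at h1
    exact hu0 h1.symm
  rw [hu0m] at he0
  -- the balanced multiples
  have hBL : ∀ u : V2 k, ∃ e : (𝓞 k)ˣ, u ≠ 0 → ∀ v : Pl k,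
      nr r v ((e : 𝓞 k) • u) ≤ CB * nn r u ^ (1 / (dg k : ℝ)) := by
    intro u
    by_cases hu : u = 0
    · exact ⟨1, fun h => absurd hu h⟩
    · obtain ⟨e, he⟩ := hBLV r u hr hu
      exact ⟨e, fun _ v => (he v).2⟩
  choose E hE using hBL
  have hF0 : ∀ u ∈ F, u ≠ 0 := fun u hu => (hF u hu).2.1.1
  have hinj : Set.InjOn (fun u => ((E u : (𝓞 k)ˣ) : 𝓞 k) • u) (F : Set (V2 k)) := by
    intro a ha b hb hab
    simp only at hab
    have ha0 := hF0 a ha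
    have hne : ((E a : (𝓞 k)ˣ) : 𝓞 k) • a ≠ 0 := by
      intro h0
      have h1 := hunit (E a) a
      rw [h0, smul_zero] at h1
      exact ha0 h1.symm
    obtain ⟨w, -, hw⟩ := hFOR.1 _ hne
    have h1 := hw a ⟨(hF a ha).2.1, (E a)⁻¹, (hunit (E a) a).symm⟩
    have h2 := hw b ⟨(hF b hb).2.1, (E b)⁻¹, by rw [hab]; exact (hunit (E b) b).symm⟩
    rw [h1, h2]
  rw [← Finset.card_image_of_injOn hinj]
  set G : Finset (V2 k) := F.image (fun u => ((E u : (𝓞 k)ˣ) : 𝓞 k) • u) with hG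
  have hGp : ∀ u ∈ G, u ∈ M ∧ ∀ v : Pl k, nr r v u ≤ CB * X ^ (1 / (dg k : ℝ)) := by
    intro w hw
    obtain ⟨u, hu, rfl⟩ := Finset.mem_image.1 hw
    refine ⟨M.smul_mem _ (hF u hu).1, fun v => (hE u (hF0 u hu) v).trans ?_⟩
    refine mul_le_mul_of_nonneg_left ?_ (by linarith)
    exact Real.rpow_le_rpow ((hNRD r u u hr).2.1 (hF0 u hu)).1.le (hF u hu).2.2 (by positivity)
  -- the values
  have hval := lcn_values hcard hn hNRD CB Cx hCB hBXC r D X (mn r M) M ((e0 : 𝓞 k) • u0) G hr hD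
    hμ hX0 hdet hu1M (fun v => (he0 v).2) hGp
    (G.image (fun u => ((det ((e0 : 𝓞 k) • u0) u : 𝓞 k) : k)))
    (fun x hx => by
      obtain ⟨u, hu, rfl⟩ := Finset.mem_image.1 hx
      exact ⟨u, hu, rfl⟩)
  -- the fibres
  have hfib : ∀ a : k, ((G.filter (fun u => ((det ((e0 : 𝓞 k) • u0) u : 𝓞 k) : k) = a)).card : ℝ) ≤
      Cx * (1 + (2 * CB) ^ dg k * Real.sqrt (X / mn r M)) := by
    intro a
    refine lcn_fibre hcard hn CB Cx hCB hBXC r X (mn r M) M ((e0 : 𝓞 k) • u0) _ hr hμ hX0 hu1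
      hmin hu1n (fun v => (he0 v).1) (fun u hu => hGp u (Finset.mem_filter.1 hu).1) ?_
    intro u hu w hw
    have h1 := (Finset.mem_filter.1 hu).2
    have h2 := (Finset.mem_filter.1 hw).2
    rw [lcn_det_sub, sub_eq_zero]
    exact RingOfIntegers.ext (h1.trans h2.symm)
  have hsq1 : 1 ≤ Real.sqrt (X / mn r M) := by
    apply Real.one_le_sqrt.2
    rwa [one_le_div hμ]
  have hT : Cx * (1 + (2 * CB) ^ dg k * Real.sqrt (X / mn r M)) ≤
      Cx * (2 * (2 * CB) ^ dg k) * Real.sqrt (X / mn r M) := by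
    have h1 : 1 ≤ (2 * CB) ^ dg k * Real.sqrt (X / mn r M) := by nlinarith
    have h2 : Cx * (1 + (2 * CB) ^ dg k * Real.sqrt (X / mn r M)) ≤
        Cx * (2 * ((2 * CB) ^ dg k * Real.sqrt (X / mn r M))) :=
      mul_le_mul_of_nonneg_left (by linarith) (by linarith)
    linarith
  have hV : Cx * (1 + (2 * CB) ^ dg k * Real.sqrt (mn r M * X) / D) ≤
      Cx * (2 * CB) ^ dg k * (1 + Real.sqrt (mn r M * X) / D) := by
    have h1 : Cx * (1 + (2 * CB) ^ dg k * Real.sqrt (mn r M * X) / D) ≤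
        Cx * ((2 * CB) ^ dg k + (2 * CB) ^ dg k * Real.sqrt (mn r M * X) / D) :=
      mul_le_mul_of_nonneg_left (by linarith) (by linarith)
    refine h1.trans (le_of_eq ?_)
    ring
  have hcount := Finset.card_le_mul_card_image (f := fun u => ((det ((e0 : 𝓞 k) • u0) u : 𝓞 k) : k))
    G ⌊Cx * (1 + (2 * CB) ^ dg k * Real.sqrt (X / mn r M))⌋₊
    (fun a _ => Nat.le_floor (hfib a))
  have hcount' : (G.card : ℝ) ≤
      (⌊Cx * (1 + (2 * CB) ^ dg k * Real.sqrt (X / mn r M))⌋₊ : ℝ) *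
        ((G.image (fun u => ((det ((e0 : 𝓞 k) • u0) u : 𝓞 k) : k))).card : ℝ) := by
    exact_mod_cast hcount
  have hT0 : 0 ≤ Cx * (1 + (2 * CB) ^ dg k * Real.sqrt (X / mn r M)) := by positivity
  have hXX : Real.sqrt (X / mn r M) * Real.sqrt (mn r M * X) = X := by
    rw [← Real.sqrt_mul (by positivity)]
    have : X / mn r M * (mn r M * X) = X ^ 2 := by field_simp
    rw [this, Real.sqrt_sq hX0.le]
  calc (G.card : ℝ) ≤ (⌊Cx * (1 + (2 * CB) ^ dg k * Real.sqrt (X / mn r M))⌋₊ : ℝ) *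
        ((G.image (fun u => ((det ((e0 : 𝓞 k) • u0) u : 𝓞 k) : k))).card : ℝ) := hcount'
    _ ≤ (Cx * (2 * (2 * CB) ^ dg k) * Real.sqrt (X / mn r M)) *
        (Cx * (2 * CB) ^ dg k * (1 + Real.sqrt (mn r M * X) / D)) :=
        mul_le_mul ((Nat.floor_le hT0).trans hT) (hval.trans hV) (by positivity) (by positivity)
    _ = (Cx * (2 * (2 * CB) ^ dg k)) * (Cx * (2 * CB) ^ dg k) *
        (Real.sqrt (X / mn r M) + Real.sqrt (X / mn r M) * Real.sqrt (mn r M * X) / D) := by ring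
    _ = (Cx * (2 * (2 * CB) ^ dg k)) * (Cx * (2 * CB) ^ dg k) *
        (Real.sqrt (X / mn r M) + X / D) := by rw [hXX]

end Pool.Agent.H90.CM4
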